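import Pool.Agent.U602.MB.Sum
import Pool.Agent.TH915.PW.DigitsMain

set_option autoImplicit false
set_option linter.unusedSectionVars false

/-! Record gaps and digital functions in several coprime bases at once. -/

namespace Pool.Agent.U602.MB

open Finset Filter
open Pool.Agent.H469R2.NK (e norm_e e_add e_zero conj_e)
open Pool.Agent.TH915.PW (Fd T_bound crit_int uniform_rho char_count norm_linear)
open Pool.Agent.W147.PS (ff ev_pow)

section

variable {ι : Type} [Fintype ι] [DecidableEq ι] [Nonempty ι]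
variable {G : ι → Type} [∀ i, AddCommGroup (G i)] [∀ i, Fintype (G i)]

/-- the components of a character of a product -/
noncomputable def comp (χ : AddChar (∀ i, G i) ℂ) (i : ι) : AddChar (G i) ℂ :=
  χ.compAddMonoidHom (AddMonoidHom.single G i)

lemma comp_apply (χ : AddChar (∀ i, G i) ℂ) (i : ι) (x : G i) :
    comp χ i x = χ (Pi.single i x) := rfl

lemma char_sum {A : Type} [AddCommGroup A] (χ : AddChar A ℂ) (s : Finset ι) (f : ι → A) :
    χ (∑ i ∈ s, f i) = ∏ i ∈ s, χ (f i) := by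
  induction s using Finset.induction_on with
  | empty => simp
  | insert i s hi ih => rw [sum_insert hi, prod_insert hi, AddChar.map_add_eq_mul, ih]

lemma char_prod (χ : AddChar (∀ i, G i) ℂ) (x : ∀ i, G i) : χ x = ∏ i, comp χ i (x i) := by
  have h : x = ∑ i, Pi.single i (x i) := (univ_sum_single x).symm
  conv_lhs => rw [h]
  rw [char_sum]
  rfl

lemma comp_ne (χ : AddChar (∀ i, G i) ℂ) (hχ : χ ≠ 0) : ∃ i, comp χ i ≠ 0 := by
  by_contra hcon
  push Not at hcon
  apply hχ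
  ext x
  rw [char_prod]
  simp [hcon]

theorem multi_main (b : ι → ℕ) (hb : ∀ i, 2 ≤ b i) (hcop : ∀ i j, i ≠ j → (b i).Coprime (b j))
    (S : ∀ i, ℕ → G i) (hS : ∀ i n d, d < b i → S i (b i * n + d) = S i n + S i d)
    (hN : ∀ i, ∀ χ : AddChar (G i) ℂ, χ ≠ 0 →
      ¬ (χ (S i 1) ^ (b i - 1) = 1 ∧ ∀ d < b i, χ (S i d) = χ (S i 1) ^ d))
    (ε : ℝ) (hε : 0 < ε) (hε1 : ε ≤ 1) :
    ∃ κ : ℝ, 0 < κ ∧ ∀ᶠ M : ℝ in atTop, ∀ g : ∀ i, G i, ∃ n : ℕ, M < n ∧ (n : ℝ) ≤ M + M ^ ε ∧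
      (∀ i, S i n = g i) ∧ ∀ q : ℕ, q.Prime → κ * ff M < |(q : ℝ) - n| := by
  classical
  have hS0 : ∀ i, S i 0 = 0 := fun i => by
    have := hS i 0 0 (by have := hb i; omega)
    simpa using this
  have hu : ∀ i, ∃ ρ : ℝ, 1 ≤ ρ ∧ ρ < (b i : ℝ) ^ 2 ∧ ∀ χ : AddChar (G i) ℂ, χ ≠ 0 → ∀ x : ℝ,
      Fd (b i) (fun n => χ (S i n)) x * Fd (b i) (fun n => χ (S i n)) (b i * x) ≤ ρ :=
    fun i => uniform_rho (b i) (hb i) (S i) (hS0 i) (hN i)
  choose ρ hρ1 hρ2 hρ using hu
  obtain ⟨η₀, hη0, hη1, hsum⟩ := sum_bound b hb hcop ρ hρ1 hρ2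
  set c : ℝ := (Fintype.card (∀ i, G i) : ℝ) with hc
  have hc1 : 1 ≤ c := by
    rw [hc]
    exact_mod_cast Fintype.card_pos
  set η : ℝ := ε * η₀ / 8 with hη
  have hη0' : 0 < η := by rw [hη]; positivity
  have hη1' : η ≤ 1 := by rw [hη]; nlinarith
  have hηε : 2 * η < ε := by rw [hη]; nlinarith
  obtain ⟨κ, hκ, hcrit⟩ := crit_int η hη0' hη1'
  refine ⟨κ, hκ, ?_⟩
  have hT : Tendsto (fun M : ℝ => M ^ ε / 2) atTop atTop :=
    (tendsto_rpow_atTop hε).atTop_div_const (by norm_num)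
  filter_upwards [hcrit, eventually_ge_atTop (1 : ℝ), (tendsto_rpow_atTop hε).eventually_ge_atTop 2,
    hT.eventually hsum, ev_pow (2 * η) ε 32 hηε,
    ev_pow (η + η) (ε * η₀) (8 * c * 2) (by rw [hη]; nlinarith [mul_pos hε hη0])]
    with M hcr hM1 hM2 hsumM hMa hMb
  intro g
  have hM0 : 0 < M := by linarith
  set H : ℕ := ⌊M ^ ε⌋₊ with hH
  have hH1 : (H : ℝ) ≤ M ^ ε := Nat.floor_le (by positivity)
  have hH2 : M ^ ε / 2 ≤ H := by
    have h1 := Nat.lt_floor_add_one (M ^ ε)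
    linarith
  have hH0 : (0 : ℝ) < H := by linarith
  set A : ℕ := ⌊M⌋₊ + 1 with hA
  have hA1 : M < A := by
    rw [hA]; push_cast; exact Nat.lt_floor_add_one M
  have hA2 : (A : ℝ) ≤ M + 1 := by
    rw [hA]; push_cast
    have := Nat.floor_le hM0.le
    linarith
  set S' : ℕ → (∀ i, G i) := fun n i => S i (A + n) with hS'
  set s : Finset ℕ := (range H).filter (fun n => S' n = g) with hs
  -- the sums with characters
  have hchar : ∀ χ : AddChar (∀ i, G i) ℂ, χ ≠ 0 → ∀ x : ℝ,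
      ‖∑ n ∈ range H, χ (S' n) * e (n * x)‖ ≤ (H : ℝ) ^ (1 - η₀) := by
    intro χ hχ x
    obtain ⟨i₀, hi₀⟩ := comp_ne χ hχ
    have h1 := hsumM H hH2 (fun i n => comp χ i (S i n)) (fun i n => (comp χ i).norm_apply _)
      (fun i n d hd => by
        rw [hS i n d hd, AddChar.map_add_eq_mul])
      ⟨i₀, fun x => hρ i₀ (comp χ i₀) hi₀ x⟩ A x
    have h2 : ∑ n ∈ range H, (∏ i, comp χ i (S i (A + n))) * e ((A + n : ℕ) * x) =
        e (A * x) * ∑ n ∈ range H, χ (S' n) * e (n * x) := by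
      rw [mul_sum]
      refine sum_congr rfl fun n _ => ?_
      rw [char_prod]
      have h3 : e ((A + n : ℕ) * x) = e (A * x) * e (n * x) := by
        rw [← e_add]
        congr 1
        push_cast
        ring
      rw [h3]
      ring
    rw [h2, norm_mul, norm_e, one_mul] at h1
    exact h1
  have hdiff : ∀ x : ℝ, ‖(Fintype.card (∀ i, G i) : ℂ) * (∑ n ∈ s, e (x * n)) -
      ∑ n ∈ range H, e (n * x)‖ ≤ c * (H : ℝ) ^ (1 - η₀) := by
    intro x
    have h0 : (0 : AddChar (∀ i, G i) ℂ) ∈ (univ : Finset (AddChar (∀ i, G i) ℂ)) := mem_univ _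
    rw [hs, char_count, ← add_sum_erase _ _ h0]
    have h1 : ((0 : AddChar (∀ i, G i) ℂ) (-g) *
        ∑ n ∈ range H, (0 : AddChar (∀ i, G i) ℂ) (S' n) * e (n * x)) =
        ∑ n ∈ range H, e (n * x) := by
      simp
    rw [h1, add_sub_cancel_left]
    refine (norm_sum_le _ _).trans ?_
    have h2 : ∀ χ ∈ (univ : Finset (AddChar (∀ i, G i) ℂ)).erase 0,
        ‖χ (-g) * ∑ n ∈ range H, χ (S' n) * e (n * x)‖ ≤ (H : ℝ) ^ (1 - η₀) := by
      intro χ hχ
      rw [norm_mul, χ.norm_apply, one_mul]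
      exact hchar χ (ne_of_mem_erase hχ) x
    refine (sum_le_card_nsmul _ _ _ h2).trans ?_
    rw [nsmul_eq_mul]
    apply mul_le_mul_of_nonneg_right _ (by positivity)
    have h3 : ((univ : Finset (AddChar (∀ i, G i) ℂ)).erase 0).card ≤
        Fintype.card (AddChar (∀ i, G i) ℂ) :=
      (card_le_card (erase_subset _ _)).trans (by rw [card_univ])
    rw [AddChar.card_eq] at h3
    rw [hc]
    exact_mod_cast h3
  have hcR : ‖(Fintype.card (∀ i, G i) : ℂ)‖ = c := by rw [hc, Complex.norm_natCast]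
  -- numerical facts
  have hHη : M ^ (ε * η₀) / 2 ≤ (H : ℝ) ^ η₀ := by
    calc M ^ (ε * η₀) / 2 ≤ M ^ (ε * η₀) * (1 / 2) ^ η₀ := by
          rw [div_eq_mul_one_div]
          apply mul_le_mul_of_nonneg_left _ (by positivity)
          calc (1 / 2 : ℝ) = (1 / 2) ^ (1 : ℝ) := (Real.rpow_one _).symm
            _ ≤ (1 / 2) ^ η₀ := Real.rpow_le_rpow_of_exponent_ge (by norm_num) (by norm_num) hη1.le
      _ = (M ^ ε / 2) ^ η₀ := by
          rw [Real.rpow_mul hM0.le, ← Real.mul_rpow (by positivity) (by norm_num)]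
          congr 1
          ring
      _ ≤ (H : ℝ) ^ η₀ := Real.rpow_le_rpow (by positivity) hH2 hη0.le
  have hMη1 : 1 ≤ M ^ η := Real.one_le_rpow hM1 hη0'.le
  have hMη0 : 0 < M ^ η := by linarith
  have hPow : 8 * c * M ^ η * (H : ℝ) ^ (1 - η₀) ≤ H := by
    have h1 : 8 * c * M ^ η ≤ (H : ℝ) ^ η₀ := by
      refine le_trans ?_ hHη
      rw [le_div_iff₀ (by norm_num)]
      refine le_trans ?_ hMb
      rw [Real.rpow_add hM0]
      have h3 : 0 ≤ 8 * c * 2 * M ^ η * (M ^ η - 1) := by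
        apply mul_nonneg (by positivity)
        linarith
      nlinarith
    calc 8 * c * M ^ η * (H : ℝ) ^ (1 - η₀) ≤ (H : ℝ) ^ η₀ * (H : ℝ) ^ (1 - η₀) := by gcongr
      _ = H := by
          rw [← Real.rpow_add hH0]
          have : η₀ + (1 - η₀) = 1 := by ring
          rw [this, Real.rpow_one]
  have hHM : 16 * (M ^ η * M ^ η) ≤ H := by
    have h1 : M ^ (2 * η) = M ^ η * M ^ η := by
      rw [← Real.rpow_add hM0]
      congr 1
      ring
    rw [← h1]
    linarith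
  have hP0 : 0 ≤ (H : ℝ) ^ (1 - η₀) := by positivity
  have hcard : (H : ℝ) / 2 ≤ c * s.card := by
    have h1 := hdiff 0
    simp only [zero_mul, mul_zero, e_zero, sum_const, nsmul_eq_mul, mul_one, card_range] at h1
    have h2 : ((Fintype.card (∀ i, G i) : ℂ) * (s.card : ℂ) - (H : ℂ)) =
        ((c * s.card - H : ℝ) : ℂ) := by
      rw [hc]; push_cast; ring
    rw [h2, Complex.norm_real, Real.norm_eq_abs] at h1
    have h3 := (abs_le.mp h1).1
    have h4 : c * (H : ℝ) ^ (1 - η₀) ≤ H / 8 := by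
      have h5 : c * (H : ℝ) ^ (1 - η₀) ≤ c * M ^ η * (H : ℝ) ^ (1 - η₀) := by
        have : c * 1 ≤ c * M ^ η := by gcongr
        rw [mul_one] at this
        gcongr
      linarith
    linarith
  have hspos : (0 : ℝ) < s.card := by
    by_contra hneg
    push Not at hneg
    have h1 : (s.card : ℝ) = 0 := le_antisymm hneg (Nat.cast_nonneg _)
    rw [h1, mul_zero] at hcard
    linarith
  have hsne : s.Nonempty := by
    rw [← card_pos]
    exact_mod_cast hspos
  obtain ⟨i, hi, hi2⟩ := hcr ℕ s (fun n => ((A + n : ℕ) : ℤ)) hsne (by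
    intro i _
    push_cast
    have : (0 : ℝ) ≤ i := Nat.cast_nonneg i
    linarith) (by
    intro q h hq hh1 hhq
    have hq0 : 0 < q := by omega
    have hq' : (0 : ℝ) < q := by exact_mod_cast hq0
    have e1 : ∑ i ∈ s, e ((h : ℝ) / q * (((A + i : ℕ) : ℤ) : ℝ)) =
        e ((h : ℝ) / q * A) * ∑ i ∈ s, e ((h : ℝ) / q * i) := by
      rw [mul_sum]
      refine sum_congr rfl fun i _ => ?_
      rw [← e_add]
      congr 1
      push_cast
      ring
    rw [e1, norm_mul, norm_e, one_mul]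
    have e2 := hdiff ((h : ℝ) / q)
    have e3 : ‖∑ n ∈ range H, e (n * ((h : ℝ) / q))‖ ≤ 2 * q := by
      have hfr : Int.fract ((h : ℝ) / q) = (h : ℝ) / q := by
        rw [Int.fract_eq_self]
        exact ⟨by positivity, (div_lt_one hq').2 (by exact_mod_cast hhq)⟩
      have := norm_linear (fun n => n * ((h : ℝ) / q)) H ((h : ℝ) / q) (1 / q) (by positivity)
        (by rw [hfr]; gcongr; exact_mod_cast hh1) (by
          rw [hfr, le_sub_iff_add_le, ← add_div, div_le_one hq']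
          exact_mod_cast hhq) (fun n _ => by push_cast; ring)
      refine this.trans (le_of_eq ?_)
      field_simp
    have e5 : ‖(Fintype.card (∀ i, G i) : ℂ) * ∑ i ∈ s, e ((h : ℝ) / q * i)‖ ≤
        ‖(Fintype.card (∀ i, G i) : ℂ) * (∑ i ∈ s, e ((h : ℝ) / q * i)) -
          ∑ n ∈ range H, e (n * ((h : ℝ) / q))‖ + ‖∑ n ∈ range H, e (n * ((h : ℝ) / q))‖ := by
      have := norm_add_le ((Fintype.card (∀ i, G i) : ℂ) * (∑ i ∈ s, e ((h : ℝ) / q * i)) -
          ∑ n ∈ range H, e (n * ((h : ℝ) / q))) (∑ n ∈ range H, e (n * ((h : ℝ) / q)))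
      rwa [sub_add_cancel] at this
    rw [norm_mul, hcR] at e5
    have e6 : c * ‖∑ i ∈ s, e ((h : ℝ) / q * i)‖ ≤ c * (s.card * M ^ (-η)) := by
      have e7 : c * ‖∑ i ∈ s, e ((h : ℝ) / q * i)‖ ≤ c * (H : ℝ) ^ (1 - η₀) + 2 * M ^ η := by
        linarith
      refine e7.trans ?_
      have e8 : (c * (H : ℝ) ^ (1 - η₀) + 2 * M ^ η) * M ^ η ≤ c * s.card := by
        refine le_trans ?_ hcard
        nlinarith
      rw [Real.rpow_neg hM0.le, ← mul_assoc, ← div_eq_mul_inv, le_div_iff₀ hMη0]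
      exact e8
    exact le_of_mul_le_mul_left e6 (by linarith))
  rw [hs, mem_filter, mem_range] at hi
  refine ⟨A + i, ?_, ?_, ?_, ?_⟩
  · push_cast
    have : (0 : ℝ) ≤ i := Nat.cast_nonneg i
    linarith
  · push_cast
    have h1 : ((i + 1 : ℕ) : ℝ) ≤ H := by exact_mod_cast hi.1
    push_cast at h1
    linarith
  · intro j
    exact congrFun hi.2 j
  · intro q hq
    have := hi2 q hq
    push_cast at this ⊢
    exact this

end

end Pool.Agent.U602.MB
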