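import Pool.Agent.U602.MB.Main
import Pool.Agent.U602.AB.Family

set_option autoImplicit false
set_option linter.unusedSectionVars false

/-! The exponential sums of digital functions in several coprime bases in blocks. -/

namespace Pool.Agent.U602.MB

open Finset Filter Topology
open Pool.Agent.H469R2.NK (e norm_e e_add e_zero)
open Pool.Agent.TH915.PW (Fd uniform_rho)
open Pool.Agent.W147.PS (ff ev_pow)
open Pool.Agent.U602.AB (Blocks)

section

variable {ι : Type} [Fintype ι] [DecidableEq ι] [Nonempty ι]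
variable {G : ι → Type} [∀ i, AddCommGroup (G i)] [∀ i, Fintype (G i)]

theorem blocks_mb (b : ι → ℕ) (hb : ∀ i, 2 ≤ b i) (hcop : ∀ i j, i ≠ j → (b i).Coprime (b j))
    (S : ∀ i, ℕ → G i) (hS : ∀ i n d, d < b i → S i (b i * n + d) = S i n + S i d)
    (hN : ∀ i, ∀ χ : AddChar (G i) ℂ, χ ≠ 0 →
      ¬ (χ (S i 1) ^ (b i - 1) = 1 ∧ ∀ d < b i, χ (S i d) = χ (S i 1) ^ d)) :
    Blocks (fun n => (fun i => S i n : ∀ i, G i)) := by
  classical
  have hS0 : ∀ i, S i 0 = 0 := fun i => by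
    have := hS i 0 0 (by have := hb i; omega)
    simpa using this
  have hu : ∀ i, ∃ ρ : ℝ, 1 ≤ ρ ∧ ρ < (b i : ℝ) ^ 2 ∧ ∀ χ : AddChar (G i) ℂ, χ ≠ 0 → ∀ x : ℝ,
      Fd (b i) (fun n => χ (S i n)) x * Fd (b i) (fun n => χ (S i n)) (b i * x) ≤ ρ :=
    fun i => uniform_rho (b i) (hb i) (S i) (hS0 i) (hN i)
  choose ρ hρ1 hρ2 hρ using hu
  obtain ⟨η₀, hη0, hη1, hsum⟩ := sum_bound b hb hcop ρ hρ1 hρ2
  refine ⟨η₀ / 2, by positivity, ?_⟩
  intro δ hδ
  have hT : Tendsto (fun X : ℝ => X ^ δ / 2) atTop atTop :=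
    (tendsto_rpow_atTop hδ).atTop_div_const (by norm_num)
  filter_upwards [eventually_ge_atTop (1 : ℝ), (tendsto_rpow_atTop hδ).eventually_ge_atTop 2,
    hT.eventually hsum, ev_pow (η₀ / 2 * δ) (η₀ * δ) 2 (by nlinarith [mul_pos hη0 hδ])]
    with X hX1 hX2 hsumX p1
  have hX0 : 0 < X := by linarith
  set H : ℕ := ⌊X ^ δ⌋₊ with hH
  have hH1 : (H : ℝ) ≤ X ^ δ := Nat.floor_le (by positivity)
  have hH2 : X ^ δ / 2 ≤ H := by
    have h1 := Nat.lt_floor_add_one (X ^ δ)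
    linarith
  have hH0 : (0 : ℝ) < H := by linarith
  refine ⟨H, by linarith, hH1, ?_⟩
  intro A
  refine ⟨A, le_rfl, by omega, ?_⟩
  intro χ hχ θ
  obtain ⟨i₀, hi₀⟩ := comp_ne χ hχ
  have h1 := hsumX H hH2 (fun i n => comp χ i (S i n)) (fun i n => (comp χ i).norm_apply _)
    (fun i n d hd => by
      rw [hS i n d hd, AddChar.map_add_eq_mul])
    ⟨i₀, fun x => hρ i₀ (comp χ i₀) hi₀ x⟩ A θ
  have h2 : ∑ n ∈ range H, (∏ i, comp χ i (S i (A + n))) * e ((A + n : ℕ) * θ) =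
      e (A * θ) * ∑ n ∈ range H, χ (fun i => S i (A + n)) * e (n * θ) := by
    rw [mul_sum]
    refine sum_congr rfl fun n _ => ?_
    rw [char_prod]
    have h3 : e ((A + n : ℕ) * θ) = e (A * θ) * e (n * θ) := by
      rw [← e_add]
      congr 1
      push_cast
      ring
    rw [h3]
    ring
  rw [h2, norm_mul, norm_e, one_mul] at h1
  refine h1.trans ?_
  rw [sub_eq_add_neg, Real.rpow_add hH0, Real.rpow_one]
  apply mul_le_mul_of_nonneg_left _ hH0.le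
  calc (H : ℝ) ^ (-η₀) ≤ (X ^ δ / 2) ^ (-η₀) :=
        Real.rpow_le_rpow_of_nonpos (by positivity) hH2 (by linarith)
    _ = 2 ^ η₀ * X ^ (-(η₀ * δ)) := by
        rw [Real.div_rpow (by positivity) (by norm_num), ← Real.rpow_mul hX0.le,
          div_eq_mul_inv, ← Real.rpow_neg (by norm_num), neg_neg]
        have h7 : δ * -η₀ = -(η₀ * δ) := by ring
        rw [h7, mul_comm]
    _ ≤ 2 * X ^ (-(η₀ * δ)) := by
        gcongr
        calc (2 : ℝ) ^ η₀ ≤ (2 : ℝ) ^ (1 : ℝ) :=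
              Real.rpow_le_rpow_of_exponent_le (by norm_num) hη1.le
          _ = 2 := Real.rpow_one _
    _ = (2 * X ^ (η₀ / 2 * δ)) * (X ^ (-(η₀ * δ)) * X ^ (-(η₀ / 2 * δ))) := by
        have h8 : X ^ (η₀ / 2 * δ) * X ^ (-(η₀ / 2 * δ)) = 1 := by
          rw [← Real.rpow_add hX0]; simp
        calc 2 * X ^ (-(η₀ * δ)) = 2 * X ^ (-(η₀ * δ)) * 1 := by ring
          _ = 2 * X ^ (-(η₀ * δ)) * (X ^ (η₀ / 2 * δ) * X ^ (-(η₀ / 2 * δ))) := by rw [h8]
          _ = _ := by ring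
    _ ≤ X ^ (η₀ * δ) * (X ^ (-(η₀ * δ)) * X ^ (-(η₀ / 2 * δ))) := by gcongr
    _ = X ^ (-(η₀ / 2 * δ)) := by
        rw [← mul_assoc, ← Real.rpow_add hX0]
        simp

end

end Pool.Agent.U602.MB
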