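import Pool.Agent.U602.MB.Vdc

set_option autoImplicit false
set_option linter.unusedSectionVars false

/-! Exponential sums of products of strongly multiplicative functions to coprime bases. -/

namespace Pool.Agent.U602.MB

open Finset Filter
open Pool.Agent.H469R2.NK (e norm_e e_add e_zero conj_e)
open Pool.Agent.TH915.PW (Fd T_bound)
open Pool.Agent.W147.PS (ev_pow)

lemma pw_comm (x : ℝ) (hx : 0 ≤ x) (L : ℕ) (s : ℝ) : (x ^ s) ^ L = (x ^ L) ^ s := by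
  rw [← Real.rpow_natCast (x ^ s), ← Real.rpow_natCast x, ← Real.rpow_mul hx, ← Real.rpow_mul hx,
    mul_comm]

section

variable {ι : Type} [Fintype ι] [DecidableEq ι] [Nonempty ι]

/-- the power saving -/
theorem sum_bound (b : ι → ℕ) (hb : ∀ i, 2 ≤ b i) (hcop : ∀ i j, i ≠ j → (b i).Coprime (b j))
    (ρ : ι → ℝ) (hρ1 : ∀ i, 1 ≤ ρ i) (hρ2 : ∀ i, ρ i < (b i : ℝ) ^ 2) :
    ∃ η : ℝ, 0 < η ∧ η < 1 ∧ ∀ᶠ X : ℝ in atTop, ∀ N : ℕ, X ≤ N → ∀ c : ι → ℕ → ℂ,
      (∀ i n, ‖c i n‖ = 1) → (∀ i n d, d < b i → c i (b i * n + d) = c i n * c i d) →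
      (∃ i₀, ∀ x, Fd (b i₀) (c i₀) x * Fd (b i₀) (c i₀) (b i₀ * x) ≤ ρ i₀) →
      ∀ (A : ℕ) (θ : ℝ),
        ‖∑ n ∈ range N, (∏ i, c i (A + n)) * e ((A + n : ℕ) * θ)‖ ≤ (N : ℝ) ^ (1 - η) := by
  classical
  set r : ℝ := (Fintype.card ι : ℝ) with hr
  have hr1 : 1 ≤ r := by
    rw [hr]
    exact_mod_cast Fintype.card_pos
  have hbR : ∀ i, (2 : ℝ) ≤ b i := fun i => by exact_mod_cast hb i
  have hb4 : ∀ i, (4 : ℝ) ≤ (b i : ℝ) ^ 2 := fun i => by nlinarith [hbR i]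
  have hlb : ∀ i, 0 < Real.log ((b i : ℝ) ^ 2) := fun i => Real.log_pos (by linarith [hb4 i])
  set lam : ι → ℝ := fun i => Real.log (ρ i) / Real.log ((b i : ℝ) ^ 2) with hlam
  have hlam1 : ∀ i, lam i < 1 := fun i => by
    rw [hlam]
    simp only
    rw [div_lt_one (hlb i)]
    exact Real.log_lt_log (by linarith [hρ1 i]) (hρ2 i)
  have hρlam : ∀ i, ((b i : ℝ) ^ 2) ^ (lam i) = ρ i := fun i => by
    rw [Real.rpow_def_of_pos (by linarith [hb4 i]), hlam]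
    simp only
    rw [mul_div_cancel₀ _ (hlb i).ne', Real.exp_log (by linarith [hρ1 i])]
  -- the constants
  obtain ⟨i₁, -, hi₁⟩ := exists_max_image univ lam univ_nonempty
  obtain ⟨i₂, -, hi₂⟩ := exists_max_image univ (fun i => (b i : ℝ) ^ 2) univ_nonempty
  set c : ℝ := min ((1 - lam i₁) / 2) (1 / 4) with hc
  have hc0 : 0 < c := lt_min (by linarith [hlam1 i₁]) (by norm_num)
  have hc4 : c ≤ 1 / 4 := min_le_right _ _
  have hclam : ∀ i, lam i ≤ 1 - 2 * c := by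
    intro i
    have h1 := hi₁ i (mem_univ i)
    have h2 : c ≤ (1 - lam i₁) / 2 := min_le_left _ _
    linarith
  set β : ℝ := (b i₂ : ℝ) ^ 2 with hβ
  have hβle : ∀ i, (b i : ℝ) ^ 2 ≤ β := fun i => hi₂ i (mem_univ i)
  have hβ4 : 4 ≤ β := hb4 i₂
  set D : ℝ := 4 * (7 + 8 * r * β) with hD
  have hD0 : 0 < D := by positivity
  refine ⟨c / (8 * r), by positivity, ?_, ?_⟩
  · rw [div_lt_one (by positivity)]
    linarith
  have hr0 : 0 < r := by linarith
  have hY : Tendsto (fun X : ℝ => X ^ (1 / (2 * r))) atTop atTop := tendsto_rpow_atTop (by positivity)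
  filter_upwards [eventually_ge_atTop (1 : ℝ), hY.eventually (ev_pow (1 - c) 1 β (by linarith)),
    hY.eventually_ge_atTop 2, ev_pow 0 (c / (4 * r)) D (by positivity),
    ev_pow (1 / 2) 1 β (by norm_num)] with X hX1 hY1 hY2 hXD hXβ
  intro N hN c' hc1 hcm hFd A θ
  obtain ⟨i₀, hFd⟩ := hFd
  have hN1 : (1 : ℝ) ≤ N := hX1.trans hN
  have hN0 : (0 : ℝ) < N := by linarith
  have hX0 : 0 < X := by linarith
  -- monotonicity: the eventual facts at `N`
  set Y : ℝ := (N : ℝ) ^ (1 / (2 * r)) with hYdef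
  have hXY : X ^ (1 / (2 * r)) ≤ Y := Real.rpow_le_rpow hX0.le hN (by positivity)
  have hY2' : 2 ≤ Y := hY2.trans hXY
  have hY0 : 0 < Y := by linarith
  have hYβ : β * Y ^ (1 - c) ≤ Y := by
    -- β ≤ X ^ (1 / (2 r)) ^ c ≤ Y ^ c
    have hx0 : 0 < X ^ (1 / (2 * r)) := by positivity
    have h1 : β ≤ (X ^ (1 / (2 * r))) ^ c := by
      rw [Real.rpow_one] at hY1
      have h2 : X ^ (1 / (2 * r)) = (X ^ (1 / (2 * r))) ^ c * (X ^ (1 / (2 * r))) ^ (1 - c) := by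
        rw [← Real.rpow_add hx0]
        have : c + (1 - c) = 1 := by ring
        rw [this, Real.rpow_one]
      have h3 : β * (X ^ (1 / (2 * r))) ^ (1 - c) ≤
          (X ^ (1 / (2 * r))) ^ c * (X ^ (1 / (2 * r))) ^ (1 - c) := by rw [← h2]; exact hY1
      exact le_of_mul_le_mul_right h3 (Real.rpow_pos_of_pos hx0 _)
    have h2 : (X ^ (1 / (2 * r))) ^ c ≤ Y ^ c := Real.rpow_le_rpow hx0.le hXY hc0.le
    calc β * Y ^ (1 - c) ≤ Y ^ c * Y ^ (1 - c) := by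
          apply mul_le_mul_of_nonneg_right (h1.trans h2) (by positivity)
      _ = Y := by
          rw [← Real.rpow_add hY0]
          have : c + (1 - c) = 1 := by ring
          rw [this, Real.rpow_one]
  have hND : D ≤ (N : ℝ) ^ (c / (4 * r)) := by
    rw [Real.rpow_zero, mul_one] at hXD
    exact hXD.trans (Real.rpow_le_rpow hX0.le hN (by positivity))
  have hNβ : β * Y ≤ N := by
    -- Y ≤ N ^ (1/2), β ≤ N ^ (1/2)
    have h1 : Y ≤ (N : ℝ) ^ (1 / 2 : ℝ) := by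
      rw [hYdef]
      apply Real.rpow_le_rpow_of_exponent_le hN1
      apply one_div_le_one_div_of_le (by norm_num)
      linarith
    have h2 : β ≤ (N : ℝ) ^ (1 / 2 : ℝ) := by
      have h3 : β * X ^ (1 / 2 : ℝ) ≤ X ^ (1 / 2 : ℝ) * X ^ (1 / 2 : ℝ) := by
        rw [← Real.rpow_add hX0]
        norm_num at hXβ ⊢
        exact hXβ
      have h4 : β ≤ X ^ (1 / 2 : ℝ) := le_of_mul_le_mul_right h3 (by positivity)
      exact h4.trans (Real.rpow_le_rpow hX0.le hN (by norm_num))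
    calc β * Y ≤ (N : ℝ) ^ (1 / 2 : ℝ) * (N : ℝ) ^ (1 / 2 : ℝ) := by gcongr
      _ = N := by
          rw [← Real.rpow_add hN0]
          norm_num
  -- the moduli
  have hLex : ∀ i, ∃ L : ℕ, ((b i : ℝ) ^ 2) ^ L ≤ Y ∧ Y < ((b i : ℝ) ^ 2) ^ (L + 1) := fun i =>
    exists_nat_pow_near (by linarith) (by linarith [hb4 i])
  choose L hL1 hL2 using hLex
  set B : ι → ℕ := fun i => b i ^ (2 * L i) with hB
  have hBR : ∀ i, (B i : ℝ) = ((b i : ℝ) ^ 2) ^ (L i) := fun i => by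
    rw [hB]; push_cast; rw [pow_mul]
  have hBnat : ∀ i, B i = ((b i) ^ 2) ^ (L i) := fun i => by rw [hB]; simp only; rw [pow_mul]
  have hBY : ∀ i, (B i : ℝ) ≤ Y := fun i => by rw [hBR]; exact hL1 i
  have hYB : ∀ i, Y ≤ B i * β := fun i => by
    rw [hBR]
    have h1 := (hL2 i).le
    rw [pow_succ] at h1
    refine h1.trans ?_
    apply mul_le_mul_of_nonneg_left (hβle i) (by positivity)
  have hBpos : ∀ i, 0 < B i := fun i => by
    rw [hB]
    have := hb i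
    positivity
  have hB0 : ∀ i, (0 : ℝ) < B i := fun i => by exact_mod_cast hBpos i
  have hB1 : ∀ i, (1 : ℝ) ≤ B i := fun i => by exact_mod_cast hBpos i
  have hBcop : ∀ i j, i ≠ j → (B i).Coprime (B j) := fun i j hij => by
    rw [hB]
    exact Nat.Coprime.pow _ _ (hcop i j hij)
  have hs : ∀ i, ∀ m n : ℕ, n < B i → c' i (B i * m + n) = c' i m * c' i n := fun i m n hn =>
    c_split (b i) (hb i) (c' i) (hc1 i) (hcm i) (2 * L i) m n hn
  -- the exponential sums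
  set E : ℝ := ρ i₀ ^ (L i₀) with hE
  have hE0 : 0 ≤ E := by
    have := hρ1 i₀
    positivity
  have hEb : ∀ x : ℝ, ‖∑ m ∈ range (B i₀), c' i₀ m * e (m * x)‖ ≤ E := fun x => by
    rw [hBnat i₀]
    exact T_bound (b i₀) (c' i₀) (hcm i₀) (hc1 i₀ 0).le (ρ i₀) (by linarith [hρ1 i₀]) hFd (L i₀) x
  have hEB : E ≤ (B i₀ : ℝ) ^ (1 - 2 * c) := by
    have h1 : E = (B i₀ : ℝ) ^ (lam i₀) := by
      rw [hE, ← hρlam i₀, hBR i₀]
      exact pw_comm _ (by linarith [hb4 i₀]) _ _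
    rw [h1]
    exact Real.rpow_le_rpow_of_exponent_le (hB1 i₀) (hclam i₀)
  -- the number of shifts
  set K : ℕ := ⌊Y ^ (1 - c)⌋₊ with hK
  have hYc : 1 ≤ Y ^ (1 - c) := Real.one_le_rpow (by linarith) (by linarith)
  have hK1 : (K : ℝ) ≤ Y ^ (1 - c) := Nat.floor_le (by positivity)
  have hK2 : Y ^ (1 - c) / 2 ≤ K := by
    have h1 := Nat.lt_floor_add_one (Y ^ (1 - c))
    have h2 : 1 ≤ K := Nat.one_le_floor_iff _ |>.2 hYc
    have h3 : (1 : ℝ) ≤ K := by exact_mod_cast h2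
    linarith
  have hKB : K ≤ B i₀ := by
    have h1 : (K : ℝ) * β ≤ B i₀ * β := by
      calc (K : ℝ) * β ≤ Y ^ (1 - c) * β := by gcongr
        _ = β * Y ^ (1 - c) := mul_comm _ _
        _ ≤ Y := hYβ
        _ ≤ _ := hYB i₀
    have h2 : (K : ℝ) ≤ B i₀ := le_of_mul_le_mul_right h1 (by linarith)
    exact_mod_cast h2
  have hK0 : (0 : ℝ) ≤ K := Nat.cast_nonneg K
  have hmain := vdc_prod B hBpos hBcop c' hc1 hs i₀ E hE0 hEb A N K hKB θ
  set S : ℝ := ‖∑ n ∈ range N, (∏ i, c' i (A + n)) * e ((A + n : ℕ) * θ)‖ with hS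
  have hS0 : 0 ≤ S := norm_nonneg _
  -- bounds of the terms
  have hc2 : 1 ≤ Y ^ (1 - 2 * c) := Real.one_le_rpow (by linarith) (by linarith)
  have t1 : (N : ℝ) / B i₀ * (Real.sqrt (2 * K * B i₀) * E) ≤ N * (2 * Y ^ (1 - 2 * c)) := by
    rw [div_mul_eq_mul_div, mul_div_assoc]
    apply mul_le_mul_of_nonneg_left _ hN0.le
    rw [div_le_iff₀ (hB0 i₀)]
    have h1 : Real.sqrt (2 * K * B i₀) ≤ 2 * (Y ^ (1 - c) * B i₀) ^ (1 / 2 : ℝ) := by
      rw [← Real.sqrt_eq_rpow]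
      have h2 : 2 * K * B i₀ ≤ 2 ^ 2 * (Y ^ (1 - c) * B i₀) := by
        have : (K : ℝ) * B i₀ ≤ Y ^ (1 - c) * B i₀ := by gcongr
        nlinarith
      calc Real.sqrt (2 * K * B i₀) ≤ Real.sqrt (2 ^ 2 * (Y ^ (1 - c) * B i₀)) := Real.sqrt_le_sqrt h2
        _ = 2 * Real.sqrt (Y ^ (1 - c) * B i₀) := by
            rw [Real.sqrt_mul (by norm_num), Real.sqrt_sq (by norm_num)]
    calc Real.sqrt (2 * K * B i₀) * E ≤
          (2 * (Y ^ (1 - c) * B i₀) ^ (1 / 2 : ℝ)) * (B i₀ : ℝ) ^ (1 - 2 * c) := by gcongr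
      _ = 2 * ((Y ^ (1 - c)) ^ (1 / 2 : ℝ) * ((B i₀ : ℝ) ^ (1 / 2 : ℝ) * (B i₀ : ℝ) ^ (1 - 2 * c))) := by
          rw [Real.mul_rpow (by positivity) (hB0 i₀).le]
          ring
      _ = 2 * (Y ^ ((1 - c) / 2) * ((B i₀ : ℝ) ^ (1 / 2 - 2 * c) * B i₀)) := by
          congr 2
          · rw [← Real.rpow_mul hY0.le]
            congr 1
            ring
          · rw [← Real.rpow_add (hB0 i₀)]
            conv_rhs => rw [← Real.rpow_one (B i₀ : ℝ), ← Real.rpow_mul (hB0 i₀).le,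
              ← Real.rpow_add (hB0 i₀)]
            congr 1
            ring
      _ ≤ 2 * (Y ^ ((1 - c) / 2) * (Y ^ (1 / 2 - 2 * c) * B i₀)) := by
          have : (B i₀ : ℝ) ^ (1 / 2 - 2 * c) ≤ Y ^ (1 / 2 - 2 * c) :=
            Real.rpow_le_rpow (hB0 i₀).le (hBY i₀) (by linarith)
          gcongr
      _ = 2 * (Y ^ ((1 - c) / 2 + (1 / 2 - 2 * c))) * B i₀ := by
          rw [Real.rpow_add hY0]
          ring
      _ ≤ 2 * Y ^ (1 - 2 * c) * B i₀ := by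
          have : Y ^ ((1 - c) / 2 + (1 / 2 - 2 * c)) ≤ Y ^ (1 - 2 * c) :=
            Real.rpow_le_rpow_of_exponent_le (by linarith) (by linarith)
          gcongr
  have t2 : (K : ℝ) * ((∏ i, B i : ℕ) : ℝ) ≤ N * Y ^ (1 - 2 * c) := by
    have h1 : ((∏ i, B i : ℕ) : ℝ) ≤ (N : ℝ) ^ (1 / 2 : ℝ) := by
      push_cast
      calc ∏ i, (B i : ℝ) ≤ ∏ _i : ι, Y := prod_le_prod (fun i _ => (hB0 i).le) (fun i _ => hBY i)
        _ = Y ^ (Fintype.card ι) := by rw [prod_const, card_univ]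
        _ = (N : ℝ) ^ (1 / 2 : ℝ) := by
            rw [hYdef, ← Real.rpow_natCast, ← Real.rpow_mul hN0.le]
            congr 1
            rw [← hr]
            field_simp
    have h2 : (K : ℝ) ≤ (N : ℝ) ^ (1 / 2 : ℝ) := by
      have h3 : Y ^ (1 - c) ≤ Y := by
        calc Y ^ (1 - c) ≤ Y ^ (1 : ℝ) :=
              Real.rpow_le_rpow_of_exponent_le (by linarith) (by linarith)
          _ = Y := Real.rpow_one _
      have h4 : Y ≤ (N : ℝ) ^ (1 / 2 : ℝ) := by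
        rw [hYdef]
        apply Real.rpow_le_rpow_of_exponent_le hN1
        apply one_div_le_one_div_of_le (by norm_num)
        linarith
      linarith
    calc (K : ℝ) * ((∏ i, B i : ℕ) : ℝ) ≤ (N : ℝ) ^ (1 / 2 : ℝ) * (N : ℝ) ^ (1 / 2 : ℝ) := by gcongr
      _ = N * 1 := by
          rw [← Real.rpow_add hN0]
          norm_num
      _ ≤ _ := by gcongr
  have t3 : 2 * (K : ℝ) ^ 2 * ∑ i, ((N : ℝ) / B i + 2) ≤ N * (4 * r * β * Y ^ (1 - 2 * c)) := by
    have h1 : ∀ i ∈ (univ : Finset ι), (N : ℝ) / B i + 2 ≤ 2 * (N * β / Y) := by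
      intro i _
      have h2 : (N : ℝ) / B i ≤ N * β / Y := by
        rw [div_le_div_iff₀ (hB0 i) hY0]
        calc (N : ℝ) * Y ≤ N * (B i * β) := mul_le_mul_of_nonneg_left (hYB i) hN0.le
          _ = _ := by ring
      have h3 : (2 : ℝ) ≤ N * β / Y := by
        rw [le_div_iff₀ hY0]
        nlinarith
      linarith
    have h2 : ∑ i, ((N : ℝ) / B i + 2) ≤ r * (2 * (N * β / Y)) := by
      refine (sum_le_card_nsmul _ _ _ h1).trans ?_
      rw [nsmul_eq_mul, card_univ]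
    have h3 : (K : ℝ) ^ 2 ≤ Y ^ (2 - 2 * c) := by
      calc (K : ℝ) ^ 2 ≤ (Y ^ (1 - c)) ^ 2 := pow_le_pow_left₀ hK0 hK1 2
        _ = Y ^ (2 - 2 * c) := by
            rw [← Real.rpow_natCast, ← Real.rpow_mul hY0.le]
            congr 1
            push_cast
            ring
    calc 2 * (K : ℝ) ^ 2 * ∑ i, ((N : ℝ) / B i + 2) ≤
          2 * Y ^ (2 - 2 * c) * (r * (2 * (N * β / Y))) := by gcongr
      _ = N * (4 * r * β * (Y ^ (2 - 2 * c) / Y)) := by field_simp; ring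
      _ = _ := by
          have : Y ^ (2 - 2 * c) / Y = Y ^ (1 - 2 * c) := by
            rw [div_eq_iff hY0.ne']
            conv_rhs => rw [← Real.rpow_one Y, ← Real.rpow_mul hY0.le, ← Real.rpow_add hY0]
            congr 1
            ring
          rw [this]
  have hKN : (K : ℝ) ≤ N := by
    have h3 : Y ^ (1 - c) ≤ Y := by
      calc Y ^ (1 - c) ≤ Y ^ (1 : ℝ) :=
            Real.rpow_le_rpow_of_exponent_le (by linarith) (by linarith)
        _ = Y := Real.rpow_one _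
    nlinarith
  set Z : ℝ := Y ^ (1 - 2 * c) with hZ
  have hbig : (K : ℝ) * S ^ 2 ≤ (2 * N) * (N * ((7 + 8 * r * β) * Z)) := by
    refine hmain.trans ?_
    have h1 : (N : ℝ) + K ≤ 2 * N := by linarith
    have h2 : (N : ℝ) + 2 * ((N : ℝ) / B i₀ * (Real.sqrt (2 * K * B i₀) * E) +
        K * ((∏ i, B i : ℕ) : ℝ) + 2 * K ^ 2 * ∑ i, ((N : ℝ) / B i + 2)) ≤
        N * ((7 + 8 * r * β) * Z) := by
      have h3 : (N : ℝ) ≤ N * Z := by nlinarith
      have h4 : N * ((7 + 8 * r * β) * Z) = N * Z + 2 * (N * (2 * Z) + N * Z +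
          N * (4 * r * β * Z)) := by ring
      rw [h4]
      linarith
    have h3 : (0 : ℝ) ≤ (N : ℝ) + K := by positivity
    calc _ ≤ ((N : ℝ) + K) * (N * ((7 + 8 * r * β) * Z)) := mul_le_mul_of_nonneg_left h2 h3
      _ ≤ _ := by
          apply mul_le_mul_of_nonneg_right h1
          positivity
  have hS2 : S ^ 2 ≤ (N : ℝ) ^ 2 * (D * Y ^ (-c)) := by
    have h1 : Y ^ (1 - c) / 2 * S ^ 2 ≤ (2 * N) * (N * ((7 + 8 * r * β) * Z)) := by
      refine le_trans ?_ hbig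
      gcongr
    have h2 : Y ^ (1 - c) * S ^ 2 ≤ Y ^ (1 - c) * ((N : ℝ) ^ 2 * (D * Y ^ (-c))) := by
      have h3 : Y ^ (1 - c) * Y ^ (-c) = Z := by
        rw [hZ, ← Real.rpow_add hY0]
        congr 1
        ring
      calc Y ^ (1 - c) * S ^ 2 = 2 * (Y ^ (1 - c) / 2 * S ^ 2) := by ring
        _ ≤ 2 * ((2 * N) * (N * ((7 + 8 * r * β) * Z))) := by linarith
        _ = (N : ℝ) ^ 2 * D * Z := by rw [hD]; ring
        _ = _ := by rw [← h3]; ring
    exact le_of_mul_le_mul_left h2 (by positivity)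
  have hYN : Y ^ (-c) = (N : ℝ) ^ (-(c / (2 * r))) := by
    rw [hYdef, ← Real.rpow_mul hN0.le]
    congr 1
    field_simp
  have hfin : S ^ 2 ≤ ((N : ℝ) ^ (1 - c / (8 * r))) ^ 2 := by
    refine hS2.trans ?_
    have h1 : ((N : ℝ) ^ (1 - c / (8 * r))) ^ 2 = (N : ℝ) ^ 2 * (N : ℝ) ^ (-(c / (4 * r))) := by
      rw [← Real.rpow_natCast, ← Real.rpow_mul hN0.le, ← Real.rpow_natCast, ← Real.rpow_add hN0]
      congr 1
      push_cast
      field_simp
      ring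
    rw [h1, hYN]
    apply mul_le_mul_of_nonneg_left _ (by positivity)
    calc D * (N : ℝ) ^ (-(c / (2 * r))) ≤ (N : ℝ) ^ (c / (4 * r)) * (N : ℝ) ^ (-(c / (2 * r))) := by
          gcongr
      _ = (N : ℝ) ^ (-(c / (4 * r))) := by
          rw [← Real.rpow_add hN0]
          congr 1
          field_simp
          ring
  exact (pow_le_pow_iff_left₀ hS0 (by positivity) two_ne_zero).1 hfin

end

end Pool.Agent.U602.MB
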