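import Pool.Agent.TH915.PW.Digits

set_option autoImplicit false

/-! Correlations of sequences with small exponential sums; sums of periodic functions. -/

namespace Pool.Agent.U602.MB

open Finset
open Pool.Agent.H469R2.NK (e norm_e e_add e_zero conj_e)
open Pool.Agent.TH915.PW (e_int sum_char e_sub sum_blocks)

/-- Parseval -/
lemma pars (R : ℕ) (hR : 0 < R) (F : ℕ → ℂ) :
    ∑ k ∈ range R, ‖∑ j ∈ range R, F j * e (j * (k / R))‖ ^ 2 = R * ∑ j ∈ range R, ‖F j‖ ^ 2 := by
  have key : ((∑ k ∈ range R, ‖∑ j ∈ range R, F j * e (j * (k / R))‖ ^ 2 : ℝ) : ℂ) =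
      ((R * ∑ j ∈ range R, ‖F j‖ ^ 2 : ℝ) : ℂ) := by
    rw [Complex.ofReal_sum]
    have h0 : ∀ k ∈ range R, ((‖∑ j ∈ range R, F j * e (j * (k / R))‖ ^ 2 : ℝ) : ℂ) =
        ∑ j ∈ range R, ∑ j' ∈ range R, F j * (starRingEnd ℂ) (F j') *
          e ((((j : ℤ) - (j' : ℤ) : ℤ) : ℝ) * ((k : ℝ) / R)) := by
      intro k _
      rw [Complex.ofReal_pow, ← Complex.mul_conj', map_sum, sum_mul_sum]
      refine sum_congr rfl fun j _ => sum_congr rfl fun j' _ => ?_
      have h1 : e ((((j : ℤ) - (j' : ℤ) : ℤ) : ℝ) * ((k : ℝ) / R)) =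
          e (j * (k / R)) * (starRingEnd ℂ) (e (j' * (k / R))) := by
        rw [← e_sub]
        congr 1
        push_cast
        ring
      rw [h1, map_mul]
      ring
    rw [sum_congr rfl h0, sum_comm]
    have h2 : ∀ j ∈ range R, ∑ k ∈ range R, ∑ j' ∈ range R, F j * (starRingEnd ℂ) (F j') *
          e ((((j : ℤ) - (j' : ℤ) : ℤ) : ℝ) * ((k : ℝ) / R)) = R * ((‖F j‖ ^ 2 : ℝ) : ℂ) := by
      intro j hj
      rw [sum_comm]
      have h3 : ∀ j' ∈ range R, ∑ k ∈ range R, F j * (starRingEnd ℂ) (F j') *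
          e ((((j : ℤ) - (j' : ℤ) : ℤ) : ℝ) * ((k : ℝ) / R)) =
          if j' = j then R * ((‖F j‖ ^ 2 : ℝ) : ℂ) else 0 := by
        intro j' hj'
        rw [mem_range] at hj hj'
        rw [← mul_sum]
        split_ifs with h
        · subst h
          simp only [sub_self, Int.cast_zero, zero_mul, e_zero, sum_const, card_range,
            nsmul_eq_mul, mul_one]
          rw [Complex.mul_conj']
          push_cast
          ring
        · rw [sum_char R hR, mul_zero]
          intro hd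
          rcases lt_or_gt_of_ne h with h4 | h4
          · have h6 := Int.le_of_dvd (by omega) hd
            omega
          · have h5 : (R : ℤ) ∣ (j' : ℤ) - j := by
              have := (dvd_neg (a := (R : ℤ))).mpr hd
              rwa [neg_sub] at this
            have h6 := Int.le_of_dvd (by omega) h5
            omega
      rw [sum_congr rfl h3, sum_ite_eq', if_pos hj]
    rw [sum_congr rfl h2, ← mul_sum]
    push_cast
    ring
  exact_mod_cast key

/-- correlations from exponential sums -/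
lemma corr (c : ℕ → ℂ) (hc : ∀ n, ‖c n‖ ≤ 1) (B : ℕ) (hB : 0 < B) (E : ℝ)
    (hE : ∀ θ : ℝ, ‖∑ m ∈ range B, c m * e (m * θ)‖ ≤ E) :
    ∑ k ∈ range B, ‖∑ m ∈ range B, c (m + k) * (starRingEnd ℂ) (c m)‖ ^ 2 ≤ 2 * B * E ^ 2 := by
  set R : ℕ := 2 * B with hR
  have hR0 : 0 < R := by omega
  have hRR : (0 : ℝ) < R := by exact_mod_cast hR0
  set u : ℕ → ℂ := fun ξ => ∑ n ∈ range R, c n * e (n * (ξ / R)) with hu
  set v : ℕ → ℂ := fun ξ => ∑ m ∈ range B, c m * e (m * (ξ / R)) with hv
  set F : ℕ → ℂ := fun ξ => (starRingEnd ℂ) (u ξ * (starRingEnd ℂ) (v ξ)) with hF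
  have h1 : ∀ k < B, ‖∑ ξ ∈ range R, F ξ * e (ξ * (k / R))‖ =
      R * ‖∑ m ∈ range B, c (m + k) * (starRingEnd ℂ) (c m)‖ := by
    intro k hk
    have h2 : ∑ ξ ∈ range R, F ξ * e (ξ * (k / R)) =
        (starRingEnd ℂ) (R * ∑ m ∈ range B, c (m + k) * (starRingEnd ℂ) (c m)) := by
      have h3 : ∀ ξ ∈ range R, F ξ * e (ξ * (k / R)) = (starRingEnd ℂ)
          (∑ m ∈ range B, ∑ n ∈ range R, c n * (starRingEnd ℂ) (c m) *
            e ((((n : ℤ) - ((m + k : ℕ) : ℤ) : ℤ) : ℝ) * ((ξ : ℝ) / R))) := by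
        intro ξ _
        have h4 : e (ξ * (k / R)) = (starRingEnd ℂ) (e (-(ξ * (k / R)))) := by
          rw [conj_e, neg_neg]
        rw [hF]
        simp only
        rw [h4, ← map_mul]
        congr 1
        rw [hu, hv]
        simp only
        rw [map_sum, sum_mul_sum, sum_comm, sum_mul]
        refine sum_congr rfl fun m _ => ?_
        rw [sum_mul]
        refine sum_congr rfl fun n _ => ?_
        have h5 : e ((((n : ℤ) - ((m + k : ℕ) : ℤ) : ℤ) : ℝ) * ((ξ : ℝ) / R)) =
            e (n * (ξ / R)) * (starRingEnd ℂ) (e (m * (ξ / R))) * e (-(ξ * (k / R))) := by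
          rw [conj_e, ← e_add, ← e_add]
          congr 1
          push_cast
          ring
        rw [h5, map_mul]
        ring
      rw [sum_congr rfl h3, ← map_sum]
      congr 1
      rw [sum_comm, mul_sum]
      refine sum_congr rfl fun m hm => ?_
      rw [sum_comm]
      have hm' := mem_range.1 hm
      have h6 : ∀ n ∈ range R, ∑ ξ ∈ range R, c n * (starRingEnd ℂ) (c m) *
            e ((((n : ℤ) - ((m + k : ℕ) : ℤ) : ℤ) : ℝ) * ((ξ : ℝ) / R)) =
          if n = m + k then R * (c (m + k) * (starRingEnd ℂ) (c m)) else 0 := by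
        intro n hn
        rw [mem_range] at hn
        rw [← mul_sum]
        split_ifs with h
        · subst h
          simp only [sub_self, Int.cast_zero, zero_mul, e_zero, sum_const, card_range,
            nsmul_eq_mul, mul_one]
          ring
        · rw [sum_char R hR0, mul_zero]
          intro hd
          rcases lt_or_gt_of_ne h with h4 | h4
          · have h5 : (R : ℤ) ∣ ((m + k : ℕ) : ℤ) - n := by
              have := (dvd_neg (a := (R : ℤ))).mpr hd
              rwa [neg_sub] at this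
            have h6 := Int.le_of_dvd (by omega) h5
            omega
          · have h6 := Int.le_of_dvd (by omega) hd
            omega
      rw [sum_congr rfl h6, sum_ite_eq', if_pos (mem_range.2 (by omega))]
    rw [h2, RCLike.norm_conj, norm_mul, Complex.norm_natCast]
  have h2 : (R : ℝ) ^ 2 * ∑ k ∈ range B, ‖∑ m ∈ range B, c (m + k) * (starRingEnd ℂ) (c m)‖ ^ 2 ≤
      R * ∑ ξ ∈ range R, ‖F ξ‖ ^ 2 := by
    rw [← pars R hR0 F, mul_sum]
    calc ∑ k ∈ range B, (R : ℝ) ^ 2 * ‖∑ m ∈ range B, c (m + k) * (starRingEnd ℂ) (c m)‖ ^ 2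
        = ∑ k ∈ range B, ‖∑ ξ ∈ range R, F ξ * e (ξ * (k / R))‖ ^ 2 := by
          refine sum_congr rfl fun k hk => ?_
          rw [h1 k (mem_range.1 hk)]
          ring
      _ ≤ _ := by
          apply sum_le_sum_of_subset_of_nonneg
          · exact range_subset_range.2 (by omega)
          · intro k _ _
            positivity
  have h3 : ∑ ξ ∈ range R, ‖F ξ‖ ^ 2 ≤ E ^ 2 * (R * R) := by
    have h4 : ∀ ξ ∈ range R, ‖F ξ‖ ^ 2 ≤ E ^ 2 * ‖u ξ‖ ^ 2 := by
      intro ξ _
      rw [hF]
      simp only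
      rw [RCLike.norm_conj, norm_mul, RCLike.norm_conj, mul_pow, mul_comm]
      apply mul_le_mul_of_nonneg_right _ (by positivity)
      exact pow_le_pow_left₀ (norm_nonneg _) (hE _) 2
    refine (sum_le_sum h4).trans ?_
    rw [← mul_sum]
    apply mul_le_mul_of_nonneg_left _ (by positivity)
    rw [hu]
    simp only
    rw [pars R hR0 c]
    apply mul_le_mul_of_nonneg_left _ hRR.le
    have h5 : ∀ j ∈ range R, ‖c j‖ ^ 2 ≤ 1 := fun j _ => pow_le_one₀ (norm_nonneg _) (hc j)
    refine (sum_le_card_nsmul _ _ _ h5).trans ?_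
    simp
  have h4 : (R : ℝ) ^ 2 * ∑ k ∈ range B, ‖∑ m ∈ range B, c (m + k) * (starRingEnd ℂ) (c m)‖ ^ 2 ≤
      (R : ℝ) ^ 2 * (2 * B * E ^ 2) := by
    refine h2.trans ?_
    calc (R : ℝ) * ∑ ξ ∈ range R, ‖F ξ‖ ^ 2 ≤ R * (E ^ 2 * (R * R)) :=
          mul_le_mul_of_nonneg_left h3 hRR.le
      _ = _ := by rw [hR]; push_cast; ring
  exact le_of_mul_le_mul_left h4 (by positivity)

/-- a periodic function along an arithmetic progression -/
lemma sum_perm (B P : ℕ) (hcop : B.Coprime P) (i : ℕ) (R : ℕ → ℂ)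
    (hR : ∀ n, R (n + P) = R n) : ∑ j ∈ range P, R (B * j + i) = ∑ j ∈ range P, R j := by
  rcases Nat.eq_zero_or_pos P with rfl | hP
  · simp
  have hmod : ∀ n, R n = R (n % P) := by
    intro n
    have h1 : ∀ k n, R (n + P * k) = R n := by
      intro k
      induction k with
      | zero => intro n; simp
      | succ k ih =>
        intro n
        rw [Nat.mul_succ, ← add_assoc, hR, ih]
    conv_lhs => rw [← Nat.mod_add_div n P]
    exact h1 _ _
  have hinj : Set.InjOn (fun j => (B * j + i) % P) (range P : Set ℕ) := by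
    intro j hj j' hj' h
    simp only [coe_range, Set.mem_Iio] at hj hj'
    have h1 : B * j + i ≡ B * j' + i [MOD P] := h
    have h2 : B * j ≡ B * j' [MOD P] := Nat.ModEq.add_right_cancel' i h1
    have h3 : j ≡ j' [MOD P] := Nat.ModEq.cancel_left_of_coprime (by rwa [Nat.coprime_comm] at hcop) h2
    exact Nat.ModEq.eq_of_lt_of_lt h3 hj hj'
  have himg : (range P).image (fun j => (B * j + i) % P) = range P := by
    apply eq_of_subset_of_card_le
    · intro x hx
      obtain ⟨j, _, rfl⟩ := mem_image.1 hx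
      exact mem_range.2 (Nat.mod_lt _ hP)
    · rw [card_image_of_injOn hinj]
  conv_rhs => rw [← himg]
  rw [sum_image hinj]
  exact sum_congr rfl fun j _ => hmod _

/-- the Chinese remainder theorem for sums -/
lemma crt_sum (B P : ℕ) (hcop : B.Coprime P) (F R : ℕ → ℂ) (hF : ∀ n, F (n + B) = F n)
    (hR : ∀ n, R (n + P) = R n) :
    ∑ n ∈ range (B * P), F n * R n = (∑ n ∈ range B, F n) * ∑ n ∈ range P, R n := by
  have hF' : ∀ m d, F (B * m + d) = F d := by
    intro m d
    induction m with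
    | zero => simp
    | succ m ih =>
      have : B * (m + 1) + d = (B * m + d) + B := by ring
      rw [this, hF, ih]
  rw [sum_blocks, sum_comm, sum_mul]
  refine sum_congr rfl fun d _ => ?_
  rw [← sum_perm B P hcop d R hR, mul_sum]
  refine sum_congr rfl fun m _ => ?_
  rw [hF']

/-- sums of periodic functions over intervals -/
lemma per_bound (P : ℕ) (hP : 0 < P) (G : ℕ → ℂ) (hG : ∀ n, G (n + P) = G n)
    (hG1 : ∀ n, ‖G n‖ ≤ 1) (N : ℕ) :
    ‖∑ n ∈ range N, G n‖ ≤ (N : ℝ) / P * ‖∑ n ∈ range P, G n‖ + P := by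
  have hG' : ∀ m d, G (P * m + d) = G d := by
    intro m d
    induction m with
    | zero => simp
    | succ m ih =>
      have : P * (m + 1) + d = (P * m + d) + P := by ring
      rw [this, hG, ih]
  have h1 : ∑ n ∈ range N, G n = ∑ n ∈ range (P * (N / P)), G n + ∑ n ∈ range (N % P), G n := by
    conv_lhs => rw [← Nat.div_add_mod N P]
    rw [sum_range_add]
    congr 1
    exact sum_congr rfl fun n _ => hG' _ _
  have h2 : ∑ n ∈ range (P * (N / P)), G n = (N / P : ℕ) * ∑ n ∈ range P, G n := by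
    rw [sum_blocks]
    have : ∀ m ∈ range (N / P), ∑ d ∈ range P, G (P * m + d) = ∑ n ∈ range P, G n :=
      fun m _ => sum_congr rfl fun d _ => hG' m d
    rw [sum_congr rfl this, sum_const, card_range, nsmul_eq_mul]
  rw [h1, h2]
  refine (norm_add_le _ _).trans ?_
  apply add_le_add
  · rw [norm_mul, Complex.norm_natCast]
    apply mul_le_mul_of_nonneg_right _ (norm_nonneg _)
    exact Nat.cast_div_le
  · refine (norm_sum_le _ _).trans ?_
    refine (sum_le_card_nsmul _ _ 1 fun n _ => hG1 n).trans ?_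
    rw [card_range, nsmul_eq_mul, mul_one]
    exact_mod_cast (Nat.mod_lt N hP).le

end Pool.Agent.U602.MB
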