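import Pool.Agent.U602.MB.Corr

set_option autoImplicit false
set_option linter.unusedSectionVars false

/-! Products of strongly multiplicative functions to coprime bases: van der Corput's inequality. -/

namespace Pool.Agent.U602.MB

open Finset
open Pool.Agent.H469R2.NK (e norm_e e_add e_zero conj_e vdcH)
open Pool.Agent.TH915.PW (e_int sum_char e_sub sum_blocks)

/-- splitting off the last digits -/
lemma c_split (b : ℕ) (hb : 2 ≤ b) (c : ℕ → ℂ) (hc1 : ∀ n, ‖c n‖ = 1)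
    (hc : ∀ n d, d < b → c (b * n + d) = c n * c d) (K : ℕ) :
    ∀ m n : ℕ, n < b ^ K → c (b ^ K * m + n) = c m * c n := by
  have hc0 : c 0 = 1 := by
    have h1 := hc 0 0 (by omega)
    simp only [mul_zero, add_zero] at h1
    have h2 : c 0 ≠ 0 := by
      intro h
      have := hc1 0
      rw [h, norm_zero] at this
      exact zero_ne_one this
    have h3 : c 0 * 1 = c 0 * c 0 := by rw [mul_one]; exact h1
    exact (mul_left_cancel₀ h2 h3).symm
  induction K with
  | zero =>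
    intro m n hn
    rw [pow_zero, Nat.lt_one_iff] at hn
    subst hn
    simp [hc0]
  | succ K ih =>
    intro m n hn
    have hd : n % b < b := Nat.mod_lt _ (by omega)
    have hq : n / b < b ^ K := by
      rw [Nat.div_lt_iff_lt_mul (by omega), ← pow_succ]
      exact hn
    have h1 : b ^ (K + 1) * m + n = b * (b ^ K * m + n / b) + n % b := by
      have := Nat.div_add_mod n b
      calc b ^ (K + 1) * m + n = b ^ (K + 1) * m + (b * (n / b) + n % b) := by rw [this]
        _ = _ := by ring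
    have h2 : c n = c (n / b) * c (n % b) := by
      conv_lhs => rw [← Nat.div_add_mod n b]
      exact hc _ _ hd
    rw [h1, hc _ _ hd, ih m (n / b) hq, h2, mul_assoc]

/-- correlations do not see the high digits if there is no carry -/
lemma no_carry (B : ℕ) (c : ℕ → ℂ) (hc1 : ∀ n, ‖c n‖ = 1)
    (hs : ∀ m n : ℕ, n < B → c (B * m + n) = c m * c n) (n l : ℕ)
    (hl : n % B + l < B) :
    c (n + l) * (starRingEnd ℂ) (c n) = c (n % B + l) * (starRingEnd ℂ) (c (n % B)) := by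
  have hB : 0 < B := by omega
  have h1 : c n = c (n / B) * c (n % B) := by
    conv_lhs => rw [← Nat.div_add_mod n B]
    exact hs _ _ (Nat.mod_lt _ hB)
  have h2 : c (n + l) = c (n / B) * c (n % B + l) := by
    have h3 : n + l = B * (n / B) + (n % B + l) := by
      rw [← add_assoc, Nat.div_add_mod]
    conv_lhs => rw [h3]
    exact hs _ _ hl
  rw [h1, h2, map_mul]
  have h3 : c (n / B) * (starRingEnd ℂ) (c (n / B)) = 1 := by
    rw [Complex.mul_conj', hc1]
    norm_num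
  calc c (n / B) * c (n % B + l) * ((starRingEnd ℂ) (c (n / B)) * (starRingEnd ℂ) (c (n % B)))
      = (c (n / B) * (starRingEnd ℂ) (c (n / B))) *
          (c (n % B + l) * (starRingEnd ℂ) (c (n % B))) := by ring
    _ = _ := by rw [h3, one_mul]

/-- the number of carries -/
lemma carry_count (B : ℕ) (hB : 0 < B) (A N l : ℕ) :
    ((range N).filter (fun n => B ≤ (A + n) % B + l)).card ≤ (N / B + 2) * l := by
  have h1 : ((range N).filter (fun n => B ≤ (A + n) % B + l)).card ≤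
      ((Icc (A / B) ((A + N) / B)) ×ˢ (Ico (B - l) B)).card := by
    apply card_le_card_of_injOn (fun n => ((A + n) / B, (A + n) % B))
    · intro n hn
      have hn' : n < N ∧ B ≤ (A + n) % B + l := by simpa using hn
      simp only [coe_product, Set.mem_prod, coe_Icc, Set.mem_Icc, coe_Ico, Set.mem_Ico]
      refine ⟨⟨Nat.div_le_div_right (by omega), Nat.div_le_div_right (by omega)⟩, ?_, 
        Nat.mod_lt _ hB⟩
      omega
    · intro n _ n' _ h
      simp only [Prod.mk.injEq] at h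
      have h2 := Nat.div_add_mod (A + n) B
      have h3 := Nat.div_add_mod (A + n') B
      rw [h.1, h.2] at h2
      omega
  refine h1.trans ?_
  rw [card_product, Nat.card_Icc, Nat.card_Ico]
  apply Nat.mul_le_mul
  · have h2 : (A + N) / B ≤ A / B + N / B + 1 := by
      have h3 : (A + N) / B < A / B + N / B + 2 := by
        rw [Nat.div_lt_iff_lt_mul hB]
        have h4 := Nat.div_add_mod A B
        have h5 := Nat.div_add_mod N B
        have h6 := Nat.mod_lt A hB
        have h7 := Nat.mod_lt N hB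
        calc A + N = B * (A / B) + A % B + (B * (N / B) + N % B) := by rw [h4, h5]
          _ < B * (A / B) + B + (B * (N / B) + B) := by omega
          _ = (A / B + N / B + 2) * B := by ring
      exact Nat.le_of_lt_succ h3
    generalize (A + N) / B = x1 at *
    generalize A / B = x2 at *
    generalize N / B = x3 at *
    omega
  · omega

section

variable {ι : Type} [Fintype ι] [DecidableEq ι]

lemma prod_diff_le (s : Finset ι) (x y : ι → ℂ) (hx : ∀ i ∈ s, ‖x i‖ ≤ 1) (hy : ∀ i ∈ s, ‖y i‖ ≤ 1) :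
    ‖∏ i ∈ s, x i - ∏ i ∈ s, y i‖ ≤ 2 := by
  have h1 : ‖∏ i ∈ s, x i‖ ≤ 1 := by
    rw [norm_prod]
    exact prod_le_one (fun i _ => norm_nonneg _) hx
  have h2 : ‖∏ i ∈ s, y i‖ ≤ 1 := by
    rw [norm_prod]
    exact prod_le_one (fun i _ => norm_nonneg _) hy
  have := norm_sub_le (∏ i ∈ s, x i) (∏ i ∈ s, y i)
  linarith

/-- the correlations of a product -/
lemma corr_prod (B : ι → ℕ) (hB : ∀ i, 0 < B i)
    (hcop : ∀ i j, i ≠ j → (B i).Coprime (B j)) (c : ι → ℕ → ℂ) (hc1 : ∀ i n, ‖c i n‖ = 1)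
    (hs : ∀ i, ∀ m n : ℕ, n < B i → c i (B i * m + n) = c i m * c i n) (i₀ : ι) (A N l : ℕ) :
    ‖∑ n ∈ range N, ∏ i, (c i (A + n + l) * (starRingEnd ℂ) (c i (A + n)))‖ ≤
      (N : ℝ) / B i₀ * ‖∑ m ∈ range (B i₀), c i₀ (m + l) * (starRingEnd ℂ) (c i₀ m)‖ +
        ((∏ i, B i : ℕ) : ℝ) + 2 * ∑ i, (((N / B i + 2) * l : ℕ) : ℝ) := by
  set G : ℕ → ℂ := fun n => ∏ i, (c i ((A + n) % B i + l) * (starRingEnd ℂ) (c i ((A + n) % B i)))
    with hG
  have hcc : ∀ i m n, ‖c i m * (starRingEnd ℂ) (c i n)‖ = 1 := by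
    intro i m n
    rw [norm_mul, RCLike.norm_conj, hc1, hc1, one_mul]
  have hG1 : ∀ n, ‖G n‖ ≤ 1 := by
    intro n
    rw [hG]
    simp only
    rw [norm_prod]
    exact prod_le_one (fun i _ => norm_nonneg _) (fun i _ => (hcc i _ _).le)
  -- the difference
  have hdiff : ‖∑ n ∈ range N, ∏ i, (c i (A + n + l) * (starRingEnd ℂ) (c i (A + n))) -
      ∑ n ∈ range N, G n‖ ≤ 2 * ∑ i, (((N / B i + 2) * l : ℕ) : ℝ) := by
    rw [← sum_sub_distrib]
    refine (norm_sum_le _ _).trans ?_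
    have h1 : ∀ n ∈ range N, ‖∏ i, (c i (A + n + l) * (starRingEnd ℂ) (c i (A + n))) - G n‖ ≤
        ∑ i, (if B i ≤ (A + n) % B i + l then (2 : ℝ) else 0) := by
      intro n _
      by_cases hcar : ∃ i, B i ≤ (A + n) % B i + l
      · obtain ⟨i, hi⟩ := hcar
        refine (prod_diff_le univ _ _ (fun i _ => (hcc i _ _).le) (fun i _ => (hcc i _ _).le)).trans ?_
        calc (2 : ℝ) = if B i ≤ (A + n) % B i + l then (2 : ℝ) else 0 := by rw [if_pos hi]
          _ ≤ _ := single_le_sum (f := fun i => if B i ≤ (A + n) % B i + l then (2 : ℝ) else 0)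
              (fun i _ => by positivity) (mem_univ i)
      · push Not at hcar
        have h2 : ∏ i, (c i (A + n + l) * (starRingEnd ℂ) (c i (A + n))) = G n := by
          rw [hG]
          simp only
          refine prod_congr rfl fun i _ => ?_
          exact no_carry (B i) (c i) (hc1 i) (hs i) (A + n) l (hcar i)
        rw [h2, sub_self, norm_zero]
        exact sum_nonneg fun i _ => by positivity
    refine (sum_le_sum h1).trans ?_
    rw [sum_comm, mul_sum]
    refine sum_le_sum fun i _ => ?_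
    rw [← sum_filter, sum_const, nsmul_eq_mul, mul_comm]
    apply mul_le_mul_of_nonneg_left _ (by norm_num)
    exact_mod_cast carry_count (B i) (hB i) A N l
  -- the periodic function
  set P' : ℕ := ∏ i ∈ univ.erase i₀, B i with hP'
  have hP'0 : 0 < P' := prod_pos fun i _ => hB i
  have hPP : ∏ i, B i = B i₀ * P' := (mul_prod_erase univ B (mem_univ i₀)).symm
  set F : ℕ → ℂ := fun n => c i₀ ((A + n) % B i₀ + l) * (starRingEnd ℂ) (c i₀ ((A + n) % B i₀)) with hF
  set R : ℕ → ℂ := fun n => ∏ i ∈ univ.erase i₀,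
    (c i ((A + n) % B i + l) * (starRingEnd ℂ) (c i ((A + n) % B i))) with hR
  have hGFR : ∀ n, G n = F n * R n := by
    intro n
    rw [hG, hF, hR]
    exact (mul_prod_erase univ _ (mem_univ i₀)).symm
  have hFper : ∀ n, F (n + B i₀) = F n := by
    intro n
    rw [hF]
    simp only
    rw [← add_assoc, Nat.add_mod_right]
  have hRper : ∀ n, R (n + P') = R n := by
    intro n
    rw [hR]
    simp only
    refine prod_congr rfl fun i hi => ?_
    have hd : B i ∣ P' := dvd_prod_of_mem _ hi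
    have : (A + (n + P')) % B i = (A + n) % B i := by
      obtain ⟨t, ht⟩ := hd
      rw [ht, ← add_assoc, Nat.add_mul_mod_self_left]
    rw [this]
  have hcop' : (B i₀).Coprime P' := by
    rw [hP']
    apply Nat.Coprime.prod_right
    intro i hi
    exact hcop i₀ i (ne_of_mem_erase hi).symm
  have hGper : ∀ n, G (n + B i₀ * P') = G n := by
    intro n
    rw [hG]
    simp only
    refine prod_congr rfl fun i _ => ?_
    have hd : B i ∣ B i₀ * P' := by
      rw [← hPP]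
      exact dvd_prod_of_mem _ (mem_univ i)
    have : (A + (n + B i₀ * P')) % B i = (A + n) % B i := by
      obtain ⟨t, ht⟩ := hd
      rw [ht, ← add_assoc, Nat.add_mul_mod_self_left]
    rw [this]
  have hsumF : ∑ n ∈ range (B i₀), F n =
      ∑ m ∈ range (B i₀), c i₀ (m + l) * (starRingEnd ℂ) (c i₀ m) := by
    have h1 := sum_perm 1 (B i₀) (Nat.coprime_one_left _) A
      (fun m => c i₀ (m % B i₀ + l) * (starRingEnd ℂ) (c i₀ (m % B i₀))) (fun n => by
        simp only [Nat.add_mod_right])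
    calc ∑ n ∈ range (B i₀), F n = ∑ j ∈ range (B i₀),
          (c i₀ ((1 * j + A) % B i₀ + l) * (starRingEnd ℂ) (c i₀ ((1 * j + A) % B i₀))) := by
          refine sum_congr rfl fun n _ => ?_
          rw [hF, one_mul, add_comm n A]
      _ = _ := h1
      _ = _ := by
          refine sum_congr rfl fun m hm => ?_
          rw [Nat.mod_eq_of_lt (mem_range.1 hm)]
  have hR1 : ∀ n, ‖R n‖ ≤ 1 := by
    intro n
    rw [hR]
    simp only
    rw [norm_prod]
    exact prod_le_one (fun i _ => norm_nonneg _) (fun i _ => (hcc i _ _).le)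
  have hfull : ‖∑ n ∈ range (B i₀ * P'), G n‖ ≤
      ‖∑ m ∈ range (B i₀), c i₀ (m + l) * (starRingEnd ℂ) (c i₀ m)‖ * P' := by
    have h1 : ∑ n ∈ range (B i₀ * P'), G n = ∑ n ∈ range (B i₀ * P'), F n * R n :=
      sum_congr rfl fun n _ => hGFR n
    rw [h1, crt_sum _ _ hcop' F R hFper hRper, norm_mul, hsumF]
    apply mul_le_mul_of_nonneg_left _ (norm_nonneg _)
    refine (norm_sum_le _ _).trans ?_
    refine (sum_le_card_nsmul _ _ 1 fun n _ => hR1 n).trans ?_
    rw [card_range, nsmul_eq_mul, mul_one]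
  have hB0R : (0 : ℝ) < B i₀ := by exact_mod_cast hB i₀
  have hP'R : (0 : ℝ) < P' := by exact_mod_cast hP'0
  have hper := per_bound (B i₀ * P') (Nat.mul_pos (hB i₀) hP'0) G hGper hG1 N
  have h2 : ‖∑ n ∈ range N, G n‖ ≤ (N : ℝ) / B i₀ *
      ‖∑ m ∈ range (B i₀), c i₀ (m + l) * (starRingEnd ℂ) (c i₀ m)‖ + ((∏ i, B i : ℕ) : ℝ) := by
    refine hper.trans ?_
    rw [hPP]
    gcongr ?_ + _
    calc (N : ℝ) / ((B i₀ * P' : ℕ) : ℝ) * ‖∑ n ∈ range (B i₀ * P'), G n‖
        ≤ (N : ℝ) / ((B i₀ * P' : ℕ) : ℝ) *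
          (‖∑ m ∈ range (B i₀), c i₀ (m + l) * (starRingEnd ℂ) (c i₀ m)‖ * P') := by gcongr
      _ = _ := by
          push_cast
          field_simp
  have h3 := norm_add_le (∑ n ∈ range N, ∏ i, (c i (A + n + l) * (starRingEnd ℂ) (c i (A + n))) -
      ∑ n ∈ range N, G n) (∑ n ∈ range N, G n)
  rw [sub_add_cancel] at h3
  linarith

/-- van der Corput's inequality for a product of strongly multiplicative functions -/
theorem vdc_prod (B : ι → ℕ) (hB : ∀ i, 0 < B i)
    (hcop : ∀ i j, i ≠ j → (B i).Coprime (B j)) (c : ι → ℕ → ℂ) (hc1 : ∀ i n, ‖c i n‖ = 1)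
    (hs : ∀ i, ∀ m n : ℕ, n < B i → c i (B i * m + n) = c i m * c i n) (i₀ : ι)
    (E : ℝ) (hE0 : 0 ≤ E) (hE : ∀ θ : ℝ, ‖∑ m ∈ range (B i₀), c i₀ m * e (m * θ)‖ ≤ E)
    (A N K : ℕ) (hK : K ≤ B i₀) (θ : ℝ) :
    (K : ℝ) * ‖∑ n ∈ range N, (∏ i, c i (A + n)) * e ((A + n : ℕ) * θ)‖ ^ 2 ≤
      (N + K) * (N + 2 * ((N : ℝ) / B i₀ * (Real.sqrt (2 * K * B i₀) * E) +
        K * ((∏ i, B i : ℕ) : ℝ) + 2 * K ^ 2 * ∑ i, ((N : ℝ) / B i + 2))) := by
  set z : ℕ → ℂ := fun n => (∏ i, c i (A + n)) * e ((A + n : ℕ) * θ) with hz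
  have hz1 : ∀ n, ‖z n‖ ≤ 1 := by
    intro n
    rw [hz]
    simp only
    rw [norm_mul, norm_e, mul_one, norm_prod]
    exact prod_le_one (fun i _ => norm_nonneg _) (fun i _ => (hc1 i _).le)
  have h1 := vdcH z hz1 N K
  refine h1.trans ?_
  apply mul_le_mul_of_nonneg_left _ (by positivity)
  suffices hkey : ∑ l ∈ Ico 1 K, ‖∑ n ∈ range (N - l), z (n + l) * (starRingEnd ℂ) (z n)‖ ≤
      (N : ℝ) / B i₀ * (Real.sqrt (2 * K * B i₀) * E) +
        K * ((∏ i, B i : ℕ) : ℝ) + 2 * K ^ 2 * ∑ i, ((N : ℝ) / B i + 2) by linarith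
  have hB0R : (0 : ℝ) < B i₀ := by exact_mod_cast hB i₀
  set Cl : ℕ → ℝ := fun l => ‖∑ m ∈ range (B i₀), c i₀ (m + l) * (starRingEnd ℂ) (c i₀ m)‖ with hCl
  have h2 : ∀ l ∈ Ico 1 K, ‖∑ n ∈ range (N - l), z (n + l) * (starRingEnd ℂ) (z n)‖ ≤
      (N : ℝ) / B i₀ * Cl l + ((∏ i, B i : ℕ) : ℝ) + 2 * K * ∑ i, ((N : ℝ) / B i + 2) := by
    intro l hl
    rw [mem_Ico] at hl
    have h3 : ∑ n ∈ range (N - l), z (n + l) * (starRingEnd ℂ) (z n) =
        e (l * θ) * ∑ n ∈ range (N - l), ∏ i, (c i (A + n + l) * (starRingEnd ℂ) (c i (A + n))) := by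
      rw [mul_sum]
      refine sum_congr rfl fun n _ => ?_
      rw [hz]
      simp only
      rw [map_mul, map_prod, prod_mul_distrib]
      have h4 : e ((A + (n + l) : ℕ) * θ) * (starRingEnd ℂ) (e ((A + n : ℕ) * θ)) = e (l * θ) := by
        rw [← e_sub]
        congr 1
        push_cast
        ring
      rw [← h4, ← add_assoc]
      ring
    rw [h3, norm_mul, norm_e, one_mul]
    refine (corr_prod B hB hcop c hc1 hs i₀ A (N - l) l).trans ?_
    have hNl : ((N - l : ℕ) : ℝ) ≤ N := by exact_mod_cast Nat.sub_le _ _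
    have hCl0 : 0 ≤ Cl l := norm_nonneg _
    have h5 : ∑ i, ((((N - l) / B i + 2) * l : ℕ) : ℝ) ≤ K * ∑ i, ((N : ℝ) / B i + 2) := by
      rw [mul_sum]
      refine sum_le_sum fun i _ => ?_
      have hBi : (0 : ℝ) < B i := by exact_mod_cast hB i
      have h6 : (((N - l) / B i : ℕ) : ℝ) ≤ (N : ℝ) / B i := by
        refine (Nat.cast_div_le).trans ?_
        gcongr
      have h7 : (l : ℝ) ≤ K := by exact_mod_cast hl.2.le
      push_cast
      calc ((((N - l) / B i : ℕ) : ℝ) + 2) * l ≤ ((N : ℝ) / B i + 2) * K := by gcongr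
        _ = _ := by ring
    have h8 : ((N - l : ℕ) : ℝ) / B i₀ * Cl l ≤ (N : ℝ) / B i₀ * Cl l := by gcongr
    have h9 : 2 * ∑ i, ((((N - l) / B i + 2) * l : ℕ) : ℝ) ≤ 2 * K * ∑ i, ((N : ℝ) / B i + 2) := by
      rw [mul_assoc]
      exact mul_le_mul_of_nonneg_left h5 (by norm_num)
    linarith
  refine (sum_le_sum h2).trans ?_
  rw [sum_add_distrib, sum_add_distrib, ← mul_sum, sum_const, sum_const, Nat.card_Ico,
    nsmul_eq_mul, nsmul_eq_mul]
  have hK1 : ((K - 1 : ℕ) : ℝ) ≤ K := by exact_mod_cast Nat.sub_le _ _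
  have hsumC : ∑ l ∈ Ico 1 K, Cl l ≤ Real.sqrt (2 * K * B i₀) * E := by
    have h3 : (∑ l ∈ Ico 1 K, Cl l) ^ 2 ≤ (2 * K * B i₀) * E ^ 2 := by
      have h4 : (∑ l ∈ Ico 1 K, Cl l) ^ 2 ≤ (Ico 1 K).card * ∑ l ∈ Ico 1 K, Cl l ^ 2 :=
        sq_sum_le_card_mul_sum_sq
      have h5 : ∑ l ∈ Ico 1 K, Cl l ^ 2 ≤ 2 * B i₀ * E ^ 2 := by
        refine le_trans ?_ (corr (c i₀) (fun n => (hc1 i₀ n).le) (B i₀) (hB i₀) E hE)
        apply sum_le_sum_of_subset_of_nonneg
        · intro l hl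
          rw [mem_Ico] at hl
          rw [mem_range]
          omega
        · intro l _ _
          positivity
      rw [Nat.card_Ico] at h4
      calc (∑ l ∈ Ico 1 K, Cl l) ^ 2 ≤ ((K - 1 : ℕ) : ℝ) * ∑ l ∈ Ico 1 K, Cl l ^ 2 := h4
        _ ≤ K * (2 * B i₀ * E ^ 2) := by gcongr
        _ = _ := by ring
    have h4 : (Real.sqrt (2 * K * B i₀) * E) ^ 2 = (2 * K * B i₀) * E ^ 2 := by
      rw [mul_pow, Real.sq_sqrt (by positivity)]
    rw [← h4] at h3
    exact (pow_le_pow_iff_left₀ (sum_nonneg fun l _ => norm_nonneg _) (by positivity)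
      two_ne_zero).1 h3
  have hSn0 : 0 ≤ ∑ i, ((N : ℝ) / B i + 2) := sum_nonneg fun i _ => by positivity
  have hP0 : (0 : ℝ) ≤ ((∏ i, B i : ℕ) : ℝ) := Nat.cast_nonneg _
  have h6 : (N : ℝ) / B i₀ * ∑ l ∈ Ico 1 K, Cl l ≤ (N : ℝ) / B i₀ * (Real.sqrt (2 * K * B i₀) * E) :=
    mul_le_mul_of_nonneg_left hsumC (by positivity)
  have h7 : ((K - 1 : ℕ) : ℝ) * ((∏ i, B i : ℕ) : ℝ) ≤ K * ((∏ i, B i : ℕ) : ℝ) :=
    mul_le_mul_of_nonneg_right hK1 hP0
  have h8 : ((K - 1 : ℕ) : ℝ) * (2 * K * ∑ i, ((N : ℝ) / B i + 2)) ≤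
      2 * K ^ 2 * ∑ i, ((N : ℝ) / B i + 2) := by
    calc ((K - 1 : ℕ) : ℝ) * (2 * K * ∑ i, ((N : ℝ) / B i + 2)) ≤
          K * (2 * K * ∑ i, ((N : ℝ) / B i + 2)) :=
            mul_le_mul_of_nonneg_right hK1 (mul_nonneg (by positivity) hSn0)
      _ = _ := by ring
  linarith

end

end Pool.Agent.U602.MB
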